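import Mathlib

/-!
# The winner of the Tribonacci game on `n`, for every `n ≥ 1`

Player 2 has a winning strategy unless `n ∈ {2, 3, 6}`, and Player 1 has one for `n ∈ {2, 3, 6}`.
-/

namespace Pool.Agent.Results.MP_7f8e47_co.TribonacciWinner

/-- The terms `S_1 = 1`, `S_2 = 2`, `S_3 = 4`, `S_{i+1} = S_i + S_{i-1} + S_{i-2}` for `i ≥ 3`.
(The value at index `0` is never used by the game.) -/
def S : ℕ → ℕ
  | 0 => 1
  | 1 => 1
  | 2 => 2
  | 3 => 4
  | (i + 4) => S (i + 3) + S (i + 2) + S (i + 1)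

/-- `Move p q`: there is a legal move of the Tribonacci game from the position (multiset of
terms) `p` to the position `q`. -/
inductive Move : Multiset ℕ → Multiset ℕ → Prop
  | rule1 (i : ℕ) (hi : 3 ≤ i) (r : Multiset ℕ) :
      Move (S (i - 2) ::ₘ S (i - 1) ::ₘ S i ::ₘ r) (S (i + 1) ::ₘ r)
  | rule2 (r : Multiset ℕ) : Move (S 1 ::ₘ S 1 ::ₘ S 2 ::ₘ r) (S 3 ::ₘ r)
  | rule3 (r : Multiset ℕ) : Move (S 1 ::ₘ S 1 ::ₘ r) (S 2 ::ₘ r)
  | rule4 (r : Multiset ℕ) : Move (S 2 ::ₘ S 2 ::ₘ r) (S 3 ::ₘ r)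
  | rule5 (r : Multiset ℕ) : Move (S 3 ::ₘ S 3 ::ₘ r) (S 4 ::ₘ S 1 ::ₘ r)
  | rule6 (i : ℕ) (hi : 4 ≤ i) (r : Multiset ℕ) :
      Move (S i ::ₘ S i ::ₘ r) (S (i + 1) ::ₘ S (i - 3) ::ₘ r)

/-- `p 0, p 1, …, p k` is a play of `k` moves of the Tribonacci game on `n`. -/
def IsPlay (n k : ℕ) (p : ℕ → Multiset ℕ) : Prop :=
  p 0 = Multiset.replicate n (S 1) ∧ ∀ t < k, Move (p t) (p (t + 1))

/-- The game has ended at the position `q`: no move is available. -/
def Ended (q : Multiset ℕ) : Prop := ∀ r, ¬ Move q r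

/-- Player 1 has a winning strategy in the Tribonacci game on `n`.  Player 1 makes the moves from
`p t` to `p (t + 1)` with `t` even.  There are a strategy `σ` and a bound `B` such that every play
in which Player 1 has followed `σ` so far has at most `B` moves; if it is Player 1's turn and the
game has not ended, then `σ` prescribes a legal move; and if the game has ended, then Player 1
made the last move (the number of moves is odd). -/
def Player1HasWinningStrategy (n : ℕ) : Prop :=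
  ∃ (σ : Multiset ℕ → Multiset ℕ) (B : ℕ), ∀ (k : ℕ) (p : ℕ → Multiset ℕ), IsPlay n k p →
    (∀ t < k, Even t → p (t + 1) = σ (p t)) →
    k ≤ B ∧ (Even k → ¬ Ended (p k) → Move (p k) (σ (p k))) ∧ (Ended (p k) → Odd k)

/-- Player 2 has a winning strategy in the Tribonacci game on `n`.  Player 2 makes the moves from
`p t` to `p (t + 1)` with `t` odd.  There are a strategy `σ` and a bound `B` such that every play
in which Player 2 has followed `σ` so far has at most `B` moves; if it is Player 2's turn and the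
game has not ended, then `σ` prescribes a legal move; and if the game has ended, then the number
of moves made is even (that is, Player 2 made the last move, or, for `n = 1`, Player 1 had no
first move). -/
def Player2HasWinningStrategy (n : ℕ) : Prop :=
  ∃ (σ : Multiset ℕ → Multiset ℕ) (B : ℕ), ∀ (k : ℕ) (p : ℕ → Multiset ℕ), IsPlay n k p →
    (∀ t < k, Odd t → p (t + 1) = σ (p t)) →
    k ≤ B ∧ (Odd k → ¬ Ended (p k) → Move (p k) (σ (p k))) ∧ (Ended (p k) → Even k)

/-! ### The sequence -/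

lemma S_one : S 1 = 1 := by rw [S]
lemma S_two : S 2 = 2 := by rw [S]
lemma S_three : S 3 = 4 := by rw [S]
lemma S_rec (i : ℕ) : S (i + 4) = S (i + 3) + S (i + 2) + S (i + 1) := by rw [S]
lemma S_four : S 4 = 7 := by
  rw [show (4 : ℕ) = 0 + 4 from rfl, S_rec]
  norm_num [S_one, S_two, S_three]

lemma S_pos : ∀ i, 0 < S i
  | 0 => by rw [S]; norm_num
  | 1 => by rw [S]; norm_num
  | 2 => by rw [S]; norm_num
  | 3 => by rw [S]; norm_num
  | (i + 4) => by rw [S]; have := S_pos (i + 3); omega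

lemma S_lt_succ : ∀ i, S (i + 1) < S (i + 2)
  | 0 => by norm_num [S_one, S_two]
  | 1 => by norm_num [S_two, S_three]
  | (i + 2) => by
      have h1 := S_rec i
      have h2 := S_pos (i + 2)
      have h3 := S_pos (i + 1)
      show S (i + 3) < S (i + 4)
      omega

lemma S_strictMono : StrictMono (fun i => S (i + 1)) := strictMono_nat_of_lt_succ S_lt_succ

/-! ### Termination -/

/-- The weight of a term: `wt (S i) = i + 1` for `i ≥ 1`. -/
noncomputable def wt (v : ℕ) : ℕ := Function.invFun (fun i => S (i + 1)) v + 2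

lemma wt_S (i : ℕ) (hi : 1 ≤ i) : wt (S i) = i + 1 := by
  obtain ⟨j, rfl⟩ : ∃ j, i = j + 1 := ⟨i - 1, by omega⟩
  unfold wt
  have := Function.leftInverse_invFun S_strictMono.injective j
  rw [this]

/-- The potential of a position. -/
noncomputable def pot (p : Multiset ℕ) : ℕ := (p.map wt).sum

lemma pot_cons (v : ℕ) (p : Multiset ℕ) : pot (v ::ₘ p) = wt v + pot p := by
  simp [pot]

lemma Move.pot_lt {p q : Multiset ℕ} (h : Move p q) : pot q < pot p := by
  cases h with
  | rule1 i hi r =>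
      simp only [pot_cons]
      rw [wt_S (i - 2) (by omega), wt_S (i - 1) (by omega), wt_S i (by omega),
        wt_S (i + 1) (by omega)]
      omega
  | rule2 r =>
      simp only [pot_cons]
      rw [wt_S 1 (by omega), wt_S 2 (by omega), wt_S 3 (by omega)]
      omega
  | rule3 r =>
      simp only [pot_cons]
      rw [wt_S 1 (by omega), wt_S 2 (by omega)]
      omega
  | rule4 r =>
      simp only [pot_cons]
      rw [wt_S 2 (by omega), wt_S 3 (by omega)]
      omega
  | rule5 r =>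
      simp only [pot_cons]
      rw [wt_S 3 (by omega), wt_S 4 (by omega), wt_S 1 (by omega)]
      omega
  | rule6 i hi r =>
      simp only [pot_cons]
      rw [wt_S i (by omega), wt_S (i + 1) (by omega), wt_S (i - 3) (by omega)]
      omega

lemma wf_move : WellFounded (fun q p : Multiset ℕ => Move p q) :=
  Subrelation.wf (r := InvImage (· < ·) pot) (fun h => Move.pot_lt h) (InvImage.wf pot wellFounded_lt)

lemma play_length {n k : ℕ} {p : ℕ → Multiset ℕ} (h : IsPlay n k p) : k ≤ 2 * n := by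
  have h0 : pot (p 0) = 2 * n := by
    rw [h.1]
    unfold pot
    rw [Multiset.map_replicate, Multiset.sum_replicate, wt_S 1 le_rfl]
    simp [mul_comm]
  have h1 : ∀ t ≤ k, pot (p t) + t ≤ 2 * n := by
    intro t
    induction t with
    | zero => intro _; omega
    | succ t ih =>
        intro ht
        have h2 := ih (by omega)
        have h3 := (h.2 t (by omega)).pot_lt
        omega
  have := h1 k le_rfl
  omega

/-! ### P-positions -/

/-- `Pp p`: the position `p` is lost for the player who has to move. -/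
def Pp : Multiset ℕ → Prop := wf_move.fix (fun p ih => ∀ q (h : Move p q), ¬ ih q h)

lemma Pp_iff (p : Multiset ℕ) : Pp p ↔ ∀ q, Move p q → ¬ Pp q := by
  unfold Pp
  rw [WellFounded.fix_eq]

open Classical in
/-- Move to a P-position if possible, otherwise anywhere. -/
noncomputable def strat (p : Multiset ℕ) : Multiset ℕ :=
  if h : ∃ q, Move p q ∧ Pp q then h.choose
  else if h' : ∃ q, Move p q then h'.choose else p

lemma strat_move {p : Multiset ℕ} (h : ¬ Ended p) : Move p (strat p) := by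
  unfold Ended at h
  push Not at h
  unfold strat
  split_ifs with h1
  · exact h1.choose_spec.1
  · exact h.choose_spec

lemma strat_Pp {p : Multiset ℕ} (h : ¬ Pp p) : Move p (strat p) ∧ Pp (strat p) := by
  rw [Pp_iff] at h
  push Not at h
  unfold strat
  rw [dif_pos h]
  exact h.choose_spec

lemma Pp_of_ended {p : Multiset ℕ} (h : Ended p) : Pp p := by
  rw [Pp_iff]
  intro q hq
  exact absurd hq (h q)

lemma player2_of_Pp {n : ℕ} (h : Pp (Multiset.replicate n (S 1))) :
    Player2HasWinningStrategy n := by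
  refine ⟨strat, 2 * n, ?_⟩
  intro k p hp hf
  have key : ∀ t ≤ k, (Even t → Pp (p t)) ∧ (Odd t → ¬ Pp (p t)) := by
    intro t
    induction t with
    | zero =>
        intro _
        refine ⟨fun _ => by rw [hp.1]; exact h, fun h0 => ?_⟩
        exact absurd h0 (by decide)
    | succ t ih =>
        intro ht
        have ih' := ih (by omega)
        refine ⟨fun he => ?_, fun ho => ?_⟩
        · have hto : Odd t := by
            rcases Nat.even_or_odd t with h1 | h1
            · exact absurd he (by simpa [Nat.even_add_one] using h1)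
            · exact h1
          rw [hf t (by omega) hto]
          exact (strat_Pp (ih'.2 hto)).2
        · have hte : Even t := by
            rcases Nat.even_or_odd t with h1 | h1
            · exact h1
            · exact absurd ho (by simpa [Nat.odd_add_one] using h1)
          exact (Pp_iff _).1 (ih'.1 hte) _ (hp.2 t (by omega))
  refine ⟨play_length hp, fun _ hne => strat_move hne, fun he => ?_⟩
  rcases Nat.even_or_odd k with h1 | h1
  · exact h1
  · exact absurd (Pp_of_ended he) ((key k le_rfl).2 h1)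

lemma player1_of_not_Pp {n : ℕ} (h : ¬ Pp (Multiset.replicate n (S 1))) :
    Player1HasWinningStrategy n := by
  refine ⟨strat, 2 * n, ?_⟩
  intro k p hp hf
  have key : ∀ t ≤ k, (Odd t → Pp (p t)) ∧ (Even t → ¬ Pp (p t)) := by
    intro t
    induction t with
    | zero =>
        intro _
        refine ⟨fun h0 => absurd h0 (by decide), fun _ => by rw [hp.1]; exact h⟩
    | succ t ih =>
        intro ht
        have ih' := ih (by omega)
        refine ⟨fun ho => ?_, fun he => ?_⟩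
        · have hte : Even t := by
            rcases Nat.even_or_odd t with h1 | h1
            · exact h1
            · exact absurd ho (by simpa [Nat.odd_add_one] using h1)
          rw [hf t (by omega) hte]
          exact (strat_Pp (ih'.2 hte)).2
        · have hto : Odd t := by
            rcases Nat.even_or_odd t with h1 | h1
            · exact absurd he (by simpa [Nat.even_add_one] using h1)
            · exact h1
          exact (Pp_iff _).1 (ih'.1 hto) _ (hp.2 t (by omega))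
  refine ⟨play_length hp, fun _ hne => strat_move hne, fun he => ?_⟩
  rcases Nat.even_or_odd k with h1 | h1
  · exact absurd (Pp_of_ended he) ((key k le_rfl).2 h1)
  · exact h1

lemma not_both {n : ℕ} (h1 : Player1HasWinningStrategy n) (h2 : Player2HasWinningStrategy n) :
    False := by
  obtain ⟨σ1, B1, h1⟩ := h1
  obtain ⟨σ2, B2, h2⟩ := h2
  let p : ℕ → Multiset ℕ := fun t =>
    Nat.rec (Multiset.replicate n (S 1)) (fun t q => if Even t then σ1 q else σ2 q) t
  have hp0 : p 0 = Multiset.replicate n (S 1) := rfl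
  have hps : ∀ t, p (t + 1) = if Even t then σ1 (p t) else σ2 (p t) := fun t => rfl
  have hf1 : ∀ t, Even t → p (t + 1) = σ1 (p t) := fun t ht => by rw [hps, if_pos ht]
  have hf2 : ∀ t, Odd t → p (t + 1) = σ2 (p t) := fun t ht => by
    rw [hps, if_neg (Nat.not_even_iff_odd.2 ht)]
  have key : ∀ k, IsPlay n k p := by
    intro k
    induction k with
    | zero => exact ⟨hp0, fun t ht => absurd ht (Nat.not_lt_zero t)⟩
    | succ k ih =>
        refine ⟨hp0, fun t ht => ?_⟩
        rcases Nat.lt_succ_iff_lt_or_eq.1 ht with h | h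
        · exact ih.2 t h
        · subst h
          obtain ⟨-, a1, b1⟩ := h1 t p ih (fun s _ hs => hf1 s hs)
          obtain ⟨-, a2, b2⟩ := h2 t p ih (fun s _ hs => hf2 s hs)
          have hne : ¬ Ended (p t) := fun he => by
            have o := b1 he
            have e := b2 he
            exact (Nat.not_even_iff_odd.2 o) e
          rcases Nat.even_or_odd t with ht | ht
          · rw [hf1 t ht]; exact a1 ht hne
          · rw [hf2 t ht]; exact a2 ht hne
  have := (h1 (B1 + 1) p (key _) (fun s _ hs => hf1 s hs)).1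
  omega

/-! ### Positions with terms `1, 2, 4, 7` only -/

/-- The position with `a` ones, `b` twos, `c` fours and `d` sevens. -/
def P (a b c d : ℕ) : Multiset ℕ :=
  Multiset.replicate a 1 + Multiset.replicate b 2 + Multiset.replicate c 4 +
    Multiset.replicate d 7

lemma P_a (a b c d : ℕ) : P (a + 1) b c d = 1 ::ₘ P a b c d := by
  simp [P, Multiset.replicate_succ]

lemma P_b (a b c d : ℕ) : P a (b + 1) c d = 2 ::ₘ P a b c d := by
  simp [P, Multiset.replicate_succ]

lemma P_c (a b c d : ℕ) : P a b (c + 1) d = 4 ::ₘ P a b c d := by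
  simp [P, Multiset.replicate_succ]

lemma P_d (a b c d : ℕ) : P a b c (d + 1) = 7 ::ₘ P a b c d := by
  simp [P, Multiset.replicate_succ]

lemma count_one (a b c d : ℕ) : (P a b c d).count 1 = a := by
  simp [P, Multiset.count_replicate]

lemma count_two (a b c d : ℕ) : (P a b c d).count 2 = b := by
  simp [P, Multiset.count_replicate]

lemma count_four (a b c d : ℕ) : (P a b c d).count 4 = c := by
  simp [P, Multiset.count_replicate]

lemma count_seven (a b c d : ℕ) : (P a b c d).count 7 = d := by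
  simp [P, Multiset.count_replicate]

lemma mem_P {a b c d v : ℕ} (h : v ∈ P a b c d) : v = 1 ∨ v = 2 ∨ v = 4 ∨ v = 7 := by
  simp only [P, Multiset.mem_add, Multiset.mem_replicate] at h
  tauto

lemma S_big {i : ℕ} (hi : 5 ≤ i) : 13 ≤ S i := by
  have h5 : S 5 = 13 := by
    rw [show (5 : ℕ) = 1 + 4 from rfl, S_rec]
    norm_num [S_two, S_three, S_four]
  obtain ⟨j, rfl⟩ : ∃ j, i = j + 1 := ⟨i - 1, by omega⟩
  have h6 : S (4 + 1) ≤ S (j + 1) := S_strictMono.monotone (show 4 ≤ j by omega)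
  rw [h5] at h6
  exact h6

/-- All moves from a position with terms `1, 2, 4, 7`, at most one `7`, and not containing
`2, 4, 7` at the same time. -/
lemma moves_P {a b c d : ℕ} (hd : d ≤ 1) (h : b = 0 ∨ c = 0 ∨ d = 0) {q : Multiset ℕ}
    (hm : Move (P a b c d) q) :
    (1 ≤ a ∧ 1 ≤ b ∧ 1 ≤ c ∧ q = P (a - 1) (b - 1) (c - 1) (d + 1)) ∨
    (2 ≤ a ∧ 1 ≤ b ∧ q = P (a - 2) (b - 1) (c + 1) d) ∨
    (2 ≤ a ∧ q = P (a - 2) (b + 1) c d) ∨
    (2 ≤ b ∧ q = P a (b - 2) (c + 1) d) ∨
    (2 ≤ c ∧ q = P (a + 1) b (c - 2) (d + 1)) := by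
  generalize hp : P a b c d = p at hm
  cases hm with
  | rule1 i hi r =>
      have hmem : S i ∈ P a b c d := by rw [hp]; simp
      have hi4 : i ≤ 4 := by
        by_contra hcon
        have := S_big (i := i) (by omega)
        have := mem_P hmem
        omega
      obtain rfl | rfl : i = 3 ∨ i = 4 := by omega
      · left
        norm_num [S_one, S_two, S_three, S_four] at hp ⊢
        have c1 := congrArg (Multiset.count 1) hp
        have c2 := congrArg (Multiset.count 2) hp
        have c4 := congrArg (Multiset.count 4) hp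
        rw [count_one] at c1
        rw [count_two] at c2
        rw [count_four] at c4
        norm_num [Multiset.count_cons] at c1 c2 c4
        obtain ⟨a', rfl⟩ : ∃ a', a = a' + 1 := ⟨a - 1, by omega⟩
        obtain ⟨b', rfl⟩ : ∃ b', b = b' + 1 := ⟨b - 1, by omega⟩
        obtain ⟨c', rfl⟩ : ∃ c', c = c' + 1 := ⟨c - 1, by omega⟩
        rw [P_a, P_b, P_c, Multiset.cons_inj_right, Multiset.cons_inj_right,
          Multiset.cons_inj_right] at hp
        refine ⟨by omega, by omega, by omega, ?_⟩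
        rw [← hp]
        simp only [Nat.add_sub_cancel]
        rw [P_d]
      · exfalso
        norm_num [S_one, S_two, S_three, S_four] at hp
        have c2 := congrArg (Multiset.count 2) hp
        have c4 := congrArg (Multiset.count 4) hp
        have c7 := congrArg (Multiset.count 7) hp
        rw [count_two] at c2
        rw [count_four] at c4
        rw [count_seven] at c7
        norm_num [Multiset.count_cons] at c2 c4 c7
        omega
  | rule2 r =>
      right; left
      norm_num [S_one, S_two, S_three, S_four] at hp ⊢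
      have c1 := congrArg (Multiset.count 1) hp
      have c2 := congrArg (Multiset.count 2) hp
      rw [count_one] at c1
      rw [count_two] at c2
      norm_num [Multiset.count_cons] at c1 c2
      obtain ⟨a', rfl⟩ : ∃ a', a = a' + 1 + 1 := ⟨a - 2, by omega⟩
      obtain ⟨b', rfl⟩ : ∃ b', b = b' + 1 := ⟨b - 1, by omega⟩
      rw [P_a, P_a, P_b, Multiset.cons_inj_right, Multiset.cons_inj_right,
        Multiset.cons_inj_right] at hp
      refine ⟨by omega, by omega, ?_⟩
      rw [← hp, P_c]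
      congr 1
  | rule3 r =>
      right; right; left
      norm_num [S_one, S_two, S_three, S_four] at hp ⊢
      have c1 := congrArg (Multiset.count 1) hp
      rw [count_one] at c1
      norm_num [Multiset.count_cons] at c1
      obtain ⟨a', rfl⟩ : ∃ a', a = a' + 1 + 1 := ⟨a - 2, by omega⟩
      rw [P_a, P_a, Multiset.cons_inj_right, Multiset.cons_inj_right] at hp
      refine ⟨by omega, ?_⟩
      rw [← hp, P_b]
      congr 1
  | rule4 r =>
      right; right; right; left
      norm_num [S_one, S_two, S_three, S_four] at hp ⊢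
      have c2 := congrArg (Multiset.count 2) hp
      rw [count_two] at c2
      norm_num [Multiset.count_cons] at c2
      obtain ⟨b', rfl⟩ : ∃ b', b = b' + 1 + 1 := ⟨b - 2, by omega⟩
      rw [P_b, P_b, Multiset.cons_inj_right, Multiset.cons_inj_right] at hp
      refine ⟨by omega, ?_⟩
      rw [← hp, P_c]
      congr 1
  | rule5 r =>
      right; right; right; right
      norm_num [S_one, S_two, S_three, S_four] at hp ⊢
      have c4 := congrArg (Multiset.count 4) hp
      rw [count_four] at c4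
      norm_num [Multiset.count_cons] at c4
      obtain ⟨c', rfl⟩ : ∃ c', c = c' + 1 + 1 := ⟨c - 2, by omega⟩
      rw [P_c, P_c, Multiset.cons_inj_right, Multiset.cons_inj_right] at hp
      refine ⟨by omega, ?_⟩
      rw [← hp, P_a, P_d, Multiset.cons_swap]
      congr 1
  | rule6 i hi r =>
      exfalso
      have hmem : S i ∈ P a b c d := by rw [hp]; simp
      have hi4 : i ≤ 4 := by
        by_contra hcon
        have := S_big (i := i) (by omega)
        have := mem_P hmem
        omega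
      obtain rfl : i = 4 := by omega
      norm_num [S_one, S_two, S_three, S_four] at hp
      have c7 := congrArg (Multiset.count 7) hp
      rw [count_seven] at c7
      norm_num [Multiset.count_cons] at c7
      omega

lemma m1 (a b c d : ℕ) : Move (P (a + 1) (b + 1) (c + 1) d) (P a b c (d + 1)) := by
  have := Move.rule1 3 le_rfl (P a b c d)
  norm_num [S_one, S_two, S_three, S_four] at this
  rw [P_a, P_b, P_c, P_d]
  exact this

lemma m2 (a b c d : ℕ) : Move (P (a + 2) (b + 1) c d) (P a b (c + 1) d) := by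
  have := Move.rule2 (P a b c d)
  norm_num [S_one, S_two, S_three, S_four] at this
  rw [P_a, P_a, P_b, P_c]
  exact this

lemma m3 (a b c d : ℕ) : Move (P (a + 2) b c d) (P a (b + 1) c d) := by
  have := Move.rule3 (P a b c d)
  norm_num [S_one, S_two, S_three, S_four] at this
  rw [P_a, P_a, P_b]
  exact this

lemma m4 (a b c d : ℕ) : Move (P a (b + 2) c d) (P a b (c + 1) d) := by
  have := Move.rule4 (P a b c d)
  norm_num [S_one, S_two, S_three, S_four] at this
  rw [P_b, P_b, P_c]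
  exact this

lemma m5 (a b c d : ℕ) : Move (P a b (c + 2) d) (P (a + 1) b c (d + 1)) := by
  have := Move.rule5 (P a b c d)
  norm_num [S_one, S_two, S_three, S_four] at this
  rw [P_c, P_c, P_d, P_a]
  exact this

lemma start_eq (n : ℕ) : Multiset.replicate n (S 1) = P n 0 0 0 := by
  simp [P, S_one]

lemma Pp_P {a b c d : ℕ} (hd : d ≤ 1) (h : b = 0 ∨ c = 0 ∨ d = 0) :
    Pp (P a b c d) ↔
      (1 ≤ a → 1 ≤ b → 1 ≤ c → ¬ Pp (P (a - 1) (b - 1) (c - 1) (d + 1))) ∧
      (2 ≤ a → 1 ≤ b → ¬ Pp (P (a - 2) (b - 1) (c + 1) d)) ∧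
      (2 ≤ a → ¬ Pp (P (a - 2) (b + 1) c d)) ∧
      (2 ≤ b → ¬ Pp (P a (b - 2) (c + 1) d)) ∧
      (2 ≤ c → ¬ Pp (P (a + 1) b (c - 2) (d + 1))) := by
  rw [Pp_iff]
  constructor
  · intro hall
    refine ⟨fun h1 h2 h3 => ?_, fun h1 h2 => ?_, fun h1 => ?_, fun h1 => ?_, fun h1 => ?_⟩
    · obtain ⟨a', rfl⟩ : ∃ a', a = a' + 1 := ⟨a - 1, by omega⟩
      obtain ⟨b', rfl⟩ : ∃ b', b = b' + 1 := ⟨b - 1, by omega⟩
      obtain ⟨c', rfl⟩ : ∃ c', c = c' + 1 := ⟨c - 1, by omega⟩
      exact hall _ (m1 a' b' c' d)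
    · obtain ⟨a', rfl⟩ : ∃ a', a = a' + 2 := ⟨a - 2, by omega⟩
      obtain ⟨b', rfl⟩ : ∃ b', b = b' + 1 := ⟨b - 1, by omega⟩
      exact hall _ (m2 a' b' c d)
    · obtain ⟨a', rfl⟩ : ∃ a', a = a' + 2 := ⟨a - 2, by omega⟩
      exact hall _ (m3 a' b c d)
    · obtain ⟨b', rfl⟩ : ∃ b', b = b' + 2 := ⟨b - 2, by omega⟩
      exact hall _ (m4 a b' c d)
    · obtain ⟨c', rfl⟩ : ∃ c', c = c' + 2 := ⟨c - 2, by omega⟩
      exact hall _ (m5 a b c' d)
  · rintro ⟨g1, g2, g3, g4, g5⟩ q hq
    rcases moves_P hd h hq with ⟨h1, h2, h3, rfl⟩ | ⟨h1, h2, rfl⟩ | ⟨h1, rfl⟩ | ⟨h1, rfl⟩ | ⟨h1, rfl⟩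
    · exact g1 h1 h2 h3
    · exact g2 h1 h2
    · exact g3 h1
    · exact g4 h1
    · exact g5 h1

/-! ### The strategy-stealing argument for `n ≥ 10` -/

lemma start_Pp (m : ℕ) : Pp (P (m + 10) 0 0 0) := by
  by_contra h0
  -- the only option of the start is `{2}`, so `{2}` is a P-position
  have h2 : Pp (P (m + 8) 1 0 0) := by
    by_contra hc
    exact h0 ((Pp_P (by norm_num) (by norm_num)).2 (by simpa using hc))
  rw [Pp_P (by norm_num) (by norm_num)] at h2
  -- `{4}` is an N-position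
  have h4 : ¬ Pp (P (m + 6) 0 1 0) := by simpa using h2.2.1
  -- its only option is `{2, 4}`
  have h24 : Pp (P (m + 4) 1 1 0) := by
    by_contra hc
    exact h4 ((Pp_P (by norm_num) (by norm_num)).2 (by simpa using hc))
  rw [Pp_P (by norm_num) (by norm_num)] at h24
  have h7 : ¬ Pp (P (m + 3) 0 0 1) := by simpa using h24.1
  have h44 : ¬ Pp (P (m + 2) 0 2 0) := by simpa using h24.2.1
  have h27 : Pp (P (m + 1) 1 0 1) := by
    by_contra hc
    exact h7 ((Pp_P (by norm_num) (by norm_num)).2 (by simpa using hc))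
  have h244 : Pp (P m 1 2 0) := by
    by_contra hc
    exact h44 ((Pp_P (by norm_num) (by norm_num)).2 (by simpa using ⟨hc, h7⟩))
  -- but `{2, 4, 4}` moves to `{2, 7}`
  exact (Pp_iff _).1 h244 _ (m5 m 1 0 0) h27

/-! ### Small `n` -/

lemma p_1_0_0_0 : Pp (P 1 0 0 0) := by
  rw [Pp_P (by norm_num) (by norm_num)]
  norm_num

lemma p_0_1_0_0 : Pp (P 0 1 0 0) := by
  rw [Pp_P (by norm_num) (by norm_num)]
  norm_num

lemma p_2_0_0_0 : ¬ Pp (P 2 0 0 0) := by
  rw [Pp_P (by norm_num) (by norm_num)]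
  norm_num [p_0_1_0_0]

lemma p_1_1_0_0 : Pp (P 1 1 0 0) := by
  rw [Pp_P (by norm_num) (by norm_num)]
  norm_num

lemma p_3_0_0_0 : ¬ Pp (P 3 0 0 0) := by
  rw [Pp_P (by norm_num) (by norm_num)]
  norm_num [p_1_1_0_0]

lemma p_0_0_1_0 : Pp (P 0 0 1 0) := by
  rw [Pp_P (by norm_num) (by norm_num)]
  norm_num

lemma p_0_2_0_0 : ¬ Pp (P 0 2 0 0) := by
  rw [Pp_P (by norm_num) (by norm_num)]
  norm_num [p_0_0_1_0]

lemma p_2_1_0_0 : ¬ Pp (P 2 1 0 0) := by
  rw [Pp_P (by norm_num) (by norm_num)]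
  norm_num [p_0_0_1_0, p_0_2_0_0]

lemma p_4_0_0_0 : Pp (P 4 0 0 0) := by
  rw [Pp_P (by norm_num) (by norm_num)]
  norm_num [p_2_1_0_0]

lemma p_1_0_1_0 : Pp (P 1 0 1 0) := by
  rw [Pp_P (by norm_num) (by norm_num)]
  norm_num

lemma p_1_2_0_0 : ¬ Pp (P 1 2 0 0) := by
  rw [Pp_P (by norm_num) (by norm_num)]
  norm_num [p_1_0_1_0]

lemma p_3_1_0_0 : ¬ Pp (P 3 1 0 0) := by
  rw [Pp_P (by norm_num) (by norm_num)]
  norm_num [p_1_0_1_0, p_1_2_0_0]

lemma p_5_0_0_0 : Pp (P 5 0 0 0) := by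
  rw [Pp_P (by norm_num) (by norm_num)]
  norm_num [p_3_1_0_0]

lemma p_0_1_1_0 : Pp (P 0 1 1 0) := by
  rw [Pp_P (by norm_num) (by norm_num)]
  norm_num

lemma p_2_0_1_0 : ¬ Pp (P 2 0 1 0) := by
  rw [Pp_P (by norm_num) (by norm_num)]
  norm_num [p_0_1_1_0]

lemma p_0_3_0_0 : ¬ Pp (P 0 3 0 0) := by
  rw [Pp_P (by norm_num) (by norm_num)]
  norm_num [p_0_1_1_0]

lemma p_2_2_0_0 : ¬ Pp (P 2 2 0 0) := by
  rw [Pp_P (by norm_num) (by norm_num)]
  norm_num [p_0_1_1_0, p_0_3_0_0, p_2_0_1_0]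

lemma p_4_1_0_0 : Pp (P 4 1 0 0) := by
  rw [Pp_P (by norm_num) (by norm_num)]
  norm_num [p_2_0_1_0, p_2_2_0_0]

lemma p_6_0_0_0 : ¬ Pp (P 6 0 0 0) := by
  rw [Pp_P (by norm_num) (by norm_num)]
  norm_num [p_4_1_0_0]

lemma p_0_0_0_1 : Pp (P 0 0 0 1) := by
  rw [Pp_P (by norm_num) (by norm_num)]
  norm_num

lemma p_1_1_1_0 : ¬ Pp (P 1 1 1 0) := by
  rw [Pp_P (by norm_num) (by norm_num)]
  norm_num [p_0_0_0_1]

lemma p_3_0_1_0 : Pp (P 3 0 1 0) := by
  rw [Pp_P (by norm_num) (by norm_num)]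
  norm_num [p_1_1_1_0]

lemma p_1_3_0_0 : Pp (P 1 3 0 0) := by
  rw [Pp_P (by norm_num) (by norm_num)]
  norm_num [p_1_1_1_0]

lemma p_3_2_0_0 : ¬ Pp (P 3 2 0 0) := by
  rw [Pp_P (by norm_num) (by norm_num)]
  norm_num [p_1_1_1_0, p_1_3_0_0, p_3_0_1_0]

lemma p_5_1_0_0 : ¬ Pp (P 5 1 0 0) := by
  rw [Pp_P (by norm_num) (by norm_num)]
  norm_num [p_3_0_1_0, p_3_2_0_0]

lemma p_7_0_0_0 : Pp (P 7 0 0 0) := by
  rw [Pp_P (by norm_num) (by norm_num)]
  norm_num [p_5_1_0_0]

lemma p_1_0_0_1 : Pp (P 1 0 0 1) := by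
  rw [Pp_P (by norm_num) (by norm_num)]
  norm_num

lemma p_0_0_2_0 : ¬ Pp (P 0 0 2 0) := by
  rw [Pp_P (by norm_num) (by norm_num)]
  norm_num [p_1_0_0_1]

lemma p_0_2_1_0 : Pp (P 0 2 1 0) := by
  rw [Pp_P (by norm_num) (by norm_num)]
  norm_num [p_0_0_2_0]

lemma p_2_1_1_0 : ¬ Pp (P 2 1 1 0) := by
  rw [Pp_P (by norm_num) (by norm_num)]
  norm_num [p_1_0_0_1, p_0_0_2_0, p_0_2_1_0]

lemma p_4_0_1_0 : Pp (P 4 0 1 0) := by
  rw [Pp_P (by norm_num) (by norm_num)]
  norm_num [p_2_1_1_0]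

lemma p_0_4_0_0 : ¬ Pp (P 0 4 0 0) := by
  rw [Pp_P (by norm_num) (by norm_num)]
  norm_num [p_0_2_1_0]

lemma p_2_3_0_0 : ¬ Pp (P 2 3 0 0) := by
  rw [Pp_P (by norm_num) (by norm_num)]
  norm_num [p_0_2_1_0, p_0_4_0_0, p_2_1_1_0]

lemma p_4_2_0_0 : ¬ Pp (P 4 2 0 0) := by
  rw [Pp_P (by norm_num) (by norm_num)]
  norm_num [p_2_1_1_0, p_2_3_0_0, p_4_0_1_0]

lemma p_6_1_0_0 : ¬ Pp (P 6 1 0 0) := by
  rw [Pp_P (by norm_num) (by norm_num)]
  norm_num [p_4_0_1_0, p_4_2_0_0]

lemma p_8_0_0_0 : Pp (P 8 0 0 0) := by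
  rw [Pp_P (by norm_num) (by norm_num)]
  norm_num [p_6_1_0_0]

lemma p_0_1_0_1 : Pp (P 0 1 0 1) := by
  rw [Pp_P (by norm_num) (by norm_num)]
  norm_num

lemma p_2_0_0_1 : ¬ Pp (P 2 0 0 1) := by
  rw [Pp_P (by norm_num) (by norm_num)]
  norm_num [p_0_1_0_1]

lemma p_1_0_2_0 : Pp (P 1 0 2 0) := by
  rw [Pp_P (by norm_num) (by norm_num)]
  norm_num [p_2_0_0_1]

lemma p_1_2_1_0 : ¬ Pp (P 1 2 1 0) := by
  rw [Pp_P (by norm_num) (by norm_num)]
  norm_num [p_0_1_0_1, p_1_0_2_0]

lemma p_3_1_1_0 : ¬ Pp (P 3 1 1 0) := by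
  rw [Pp_P (by norm_num) (by norm_num)]
  norm_num [p_2_0_0_1, p_1_0_2_0, p_1_2_1_0]

lemma p_5_0_1_0 : Pp (P 5 0 1 0) := by
  rw [Pp_P (by norm_num) (by norm_num)]
  norm_num [p_3_1_1_0]

lemma p_1_4_0_0 : Pp (P 1 4 0 0) := by
  rw [Pp_P (by norm_num) (by norm_num)]
  norm_num [p_1_2_1_0]

lemma p_3_3_0_0 : ¬ Pp (P 3 3 0 0) := by
  rw [Pp_P (by norm_num) (by norm_num)]
  norm_num [p_1_2_1_0, p_1_4_0_0, p_3_1_1_0]

lemma p_5_2_0_0 : ¬ Pp (P 5 2 0 0) := by
  rw [Pp_P (by norm_num) (by norm_num)]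
  norm_num [p_3_1_1_0, p_3_3_0_0, p_5_0_1_0]

lemma p_7_1_0_0 : ¬ Pp (P 7 1 0 0) := by
  rw [Pp_P (by norm_num) (by norm_num)]
  norm_num [p_5_0_1_0, p_5_2_0_0]

lemma p_9_0_0_0 : Pp (P 9 0 0 0) := by
  rw [Pp_P (by norm_num) (by norm_num)]
  norm_num [p_7_1_0_0]

/-- The winner of the Tribonacci game on `n`, for every `n ≥ 1`: Player 2 has a winning strategy
unless `n ∈ {2, 3, 6}`, and Player 1 has one exactly when `n ∈ {2, 3, 6}`. -/
theorem result (n : ℕ) (hn : 1 ≤ n) :
    (Player2HasWinningStrategy n ↔ n ≠ 2 ∧ n ≠ 3 ∧ n ≠ 6) ∧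
    (Player1HasWinningStrategy n ↔ n = 2 ∨ n = 3 ∨ n = 6) := by
  have hP : Pp (P n 0 0 0) ↔ (n ≠ 2 ∧ n ≠ 3 ∧ n ≠ 6) := by
    rcases Nat.lt_or_ge n 10 with h | h
    · interval_cases n
      · simpa using p_1_0_0_0
      · simpa using p_2_0_0_0
      · simpa using p_3_0_0_0
      · simpa using p_4_0_0_0
      · simpa using p_5_0_0_0
      · simpa using p_6_0_0_0
      · simpa using p_7_0_0_0
      · simpa using p_8_0_0_0
      · simpa using p_9_0_0_0
    · obtain ⟨m, rfl⟩ : ∃ m, n = m + 10 := ⟨n - 10, by omega⟩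
      exact ⟨fun _ => by omega, fun _ => start_Pp m⟩
  rw [← start_eq] at hP
  by_cases h : Pp (Multiset.replicate n (S 1))
  · have h2 := player2_of_Pp h
    refine ⟨⟨fun _ => hP.1 h, fun _ => h2⟩, ⟨fun h1 => (not_both h1 h2).elim, fun h1 => ?_⟩⟩
    have := hP.1 h
    omega
  · have h1 := player1_of_not_Pp h
    refine ⟨⟨fun h2 => (not_both h1 h2).elim, fun h2 => absurd (hP.2 h2) h⟩, ⟨fun _ => ?_, fun _ => h1⟩⟩
    by_contra hc
    exact h (hP.2 (by omega))

end Pool.Agent.Results.MP_7f8e47_co.TribonacciWinner
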